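import Pool.Agent.LRG.StmtsB3

/-!
# Squad LRG, row TAS (smallness of the set `T_A`)
-/

set_option autoImplicit false

open Polynomial

namespace Pool.Agent.LRG.H2

/-- `yv` of a point with coordinates in an ideal generated by `a` (divisibility). -/
theorem yv_dvd (D : ℕ → ℕ) {m : ℕ} {O : Type} [CommRing O] (a : O) :
    ∀ (k : ℕ) (x : Fin (m + k) → O), (∀ i, a ∣ x i) → ∀ i, a ∣ yv D k x i
  | 0, x, h, i => h i
  | k + 1, x, h, i => by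
      have h1 : a ∣ yv D k (Fin.tail (n := m + k) (α := fun _ => O) x) i :=
        yv_dvd D a k _ (fun j => h j.succ) i
      have h2 : a ∣ x (0 : Fin (m + k + 1)) ^ (D k + 1) ^ ((i : ℕ) + 1) :=
        dvd_pow (h 0) (pow_ne_zero _ (Nat.succ_ne_zero _))
      exact dvd_sub h1 h2

/-- The relations pass from the integers to a commutative ring. -/
theorem rels_cast (hTRL : TrlStmt) (D : ℕ → ℕ) (m k : ℕ)
    (s : (j : ℕ) → (Fin (m + 1) → Fin (D j + 1)) → ℤ) (x : Fin (m + k) → ℤ)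
    (h : Rels D s k x) (O : Type) [CommRing O] :
    Rels D (fun j α => (s j α : O)) k (fun i => (x i : O)) := by
  obtain ⟨δ, hδ⟩ := hTRL D m k
  obtain ⟨q, -, hq⟩ := hδ s
  have h1 : Rels D (fun j α => ((s j α : ℤ) : ℤ)) k x := by
    simpa using h
  have h2 := (hq ℤ x).1 h1
  refine (hq O (fun i => (x i : O))).2 ?_
  intro j
  have h3 := MvPolynomial.aeval_algebraMap_apply (B := O) x (q j)
  have h4 : (algebraMap ℤ O ∘ x) = (fun i => (x i : O)) := by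
    funext i
    simp
  rw [h4] at h3
  rw [h3, h2 j, map_zero]

/-- The class of the coefficients modulo `p`, extended by `0`. -/
def ext {p : ℕ} {D : ℕ → ℕ} {m k : ℕ}
    (s₀ : (j : Fin k) → (Fin (m + 1) → Fin (D j + 1)) → ZMod p) :
    (j : ℕ) → (Fin (m + 1) → Fin (D j + 1)) → ℤ :=
  fun j α => if h : j < k then (((s₀ ⟨j, h⟩ α).val : ℕ) : ℤ) else 0

theorem ext_dvd {p : ℕ} [Fact p.Prime] {D : ℕ → ℕ} {m k : ℕ}
    (s : (j : ℕ) → (Fin (m + 1) → Fin (D j + 1)) → ℤ) (j : ℕ) (hj : j < k)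
    (α : Fin (m + 1) → Fin (D j + 1)) :
    (p : ℤ) ∣ s j α - ext (p := p) (D := D) (m := m) (k := k) (fun j α => (s j α : ZMod p)) j α := by
  rw [← ZMod.intCast_zmod_eq_zero_iff_dvd]
  simp [ext, hj]

/-- The property of a class of coefficients: the numbers of CHX and DMM. -/
def Good (p : ℕ) [Fact p.Prime] (n k : ℕ) (D : ℕ → ℕ)
    (F : MvPowerSeries (Fin (n + 1 + k)) ℤ_[p]) (θ : ℝ)
    (s₀ : (j : ℕ) → (Fin (n + 1 + 1) → Fin (D j + 1)) → ℤ) (n₀ K D' : ℕ) (B' : ℝ) : Prop :=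
  (∀ s : (j : ℕ) → (Fin (n + 1 + 1) → Fin (D j + 1)) → ℤ,
  (∀ j < k, ∀ α, (p : ℤ) ∣ s j α - s₀ j α) →
  ∃ (ψ : MvPowerSeries (Fin (n + 1)) ℤ_[p] →ₐ[ℤ_[p]] MvPowerSeries (Fin (n + 1 + k)) ℤ_[p])
    (b : Fin n₀ → MvPowerSeries (Fin (n + 1 + k)) ℤ_[p])
    (χ : (MvPowerSeries (Fin (n + 1)) ℤ_[p])[X]),
    (∀ i, ψ (MvPowerSeries.X i) = yv D k MvPowerSeries.X i) ∧ χ.Monic ∧
    (∀ j, Dom K (χ.coeff j)) ∧
    (∀ (O : Type) [CommRing O] (Φ : MvPowerSeries (Fin (n + 1 + k)) ℤ_[p] →+* O),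
      Rels D (fun j α => (s j α : O)) k (fun i => Φ (MvPowerSeries.X i)) →
      χ.eval₂ (Φ.comp
        (ψ : MvPowerSeries (Fin (n + 1)) ℤ_[p] →+* MvPowerSeries (Fin (n + 1 + k)) ℤ_[p]))
        (Φ F) = 0) ∧
    ∀ f : MvPowerSeries (Fin (n + 1 + k)) ℤ_[p], ∃ c : Fin n₀ → MvPowerSeries (Fin (n + 1)) ℤ_[p],
      ∀ (O : Type) [CommRing O] (Φ : MvPowerSeries (Fin (n + 1 + k)) ℤ_[p] →+* O),
      Rels D (fun j α => (s j α : O)) k (fun i => Φ (MvPowerSeries.X i)) →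
      Φ f = ∑ i, Φ (ψ (c i)) * Φ (b i)) ∧
  (∀ a : MvPowerSeries (Fin (n + 1)) ℤ_[p], a ≠ 0 → Dom K a →
  ∀ (P : Type) (T : Finset P) (X : ℕ), 1 ≤ X → ∀ (w : P → Fin (n + 1) → ℤ)
    (ϕ : P → (MvPowerSeries (Fin (n + 1)) ℤ_[p] →ₐ[ℤ_[p]] ℤ_[p])) (v : P → Fin (n + 1) → ℤ_[p])
    (b : P → Fin n₀ → ℤ_[p]),
    (∀ x ∈ T, (∀ i, |w x i| ≤ X) ∧ (∀ i, ϕ x (MvPowerSeries.X i) = p * v x i) ∧ ϕ x a = 0) →
    (∀ α : Fin (n + 1) → ℕ, ∃ c : Fin n₀ → MvPowerSeries (Fin (n + 1)) ℤ_[p], ∀ x ∈ T,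
      ((∏ i, w x i ^ α i : ℤ) : ℤ_[p]) = ∑ l, ϕ x (c l) * b x l) →
    ∃ (n₁ : ℕ) (cls : P → Fin n₁), (n₁ : ℝ) ≤ B' * (X : ℝ) ^ θ ∧
      ∀ l, ∃ c : (Fin (n + 1) → Fin (D' + 1)) → ℤ, c ≠ 0 ∧ ∀ x ∈ T, cls x = l → gv c (w x) = 0)

/-- **Row TAS**. -/
theorem tas (hCHX : ChxConcl) (hDMM : DmmConcl) (hJTR : JtrStmt) (hTRL : TrlStmt)
    (hGVP : GvpStmt) (hLAR : LarStmt) : TasConcl := by
  intro p _ n k D F θ hθ
  classical
  -- the numbers for all classes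
  have hcl : ∀ s₀ : (j : Fin k) → (Fin (n + 1 + 1) → Fin (D j + 1)) → ZMod p,
      ∃ (n₀ K D' : ℕ) (B' : ℝ),
        (∀ j < k, ∃ α, ¬ (p : ℤ) ∣ ext s₀ j α) → Good p n k D F θ (ext s₀) n₀ K D' B' := by
    intro s₀
    by_cases hg : ∀ j < k, ∃ α, ¬ (p : ℤ) ∣ ext s₀ j α
    · obtain ⟨n₀, K, h1⟩ := hCHX p D (n + 1) k (ext s₀) hg F
      obtain ⟨D', B', h2⟩ := hDMM p n n₀ K θ hθ
      exact ⟨n₀, K, D', B', fun _ => ⟨h1, h2⟩⟩
    · exact ⟨0, 0, 0, 0, fun h => absurd h hg⟩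
  choose N₀ K D' B' hcls using hcl
  refine ⟨∑ s₀, (n + 1) * D' s₀, 1 + ∑ s₀, 2 * |B' s₀|, ?_, ?_⟩
  · have : 0 ≤ ∑ s₀, 2 * |B' s₀| := Finset.sum_nonneg fun i _ => by positivity
    linarith
  intro s hs
  set s₀ : (j : Fin k) → (Fin (n + 1 + 1) → Fin (D j + 1)) → ZMod p :=
    fun j α => (s j α : ZMod p) with hs₀
  have hdvd : ∀ j < k, ∀ α, (p : ℤ) ∣ s j α - ext s₀ j α := fun j hj α => ext_dvd s j hj α
  have hgood : ∀ j < k, ∃ α, ¬ (p : ℤ) ∣ ext s₀ j α := by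
    intro j hj
    obtain ⟨α, hα⟩ := hs j hj
    refine ⟨α, fun h => hα ?_⟩
    have := dvd_add (hdvd j hj α) h
    simpa using this
  obtain ⟨h1, h2⟩ := hcls s₀ hgood
  have he : (n + 1) * D' s₀ ≤ ∑ s₀, (n + 1) * D' s₀ :=
    Finset.single_le_sum (f := fun s₀ => (n + 1) * D' s₀) (fun _ _ => Nat.zero_le _)
      (Finset.mem_univ s₀)
  have hC : 2 * |B' s₀| ≤ 1 + ∑ s₀, 2 * |B' s₀| := by
    have : 2 * |B' s₀| ≤ ∑ s₀, 2 * |B' s₀| :=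
      Finset.single_le_sum (f := fun s₀ => 2 * |B' s₀|) (fun _ _ => by positivity)
        (Finset.mem_univ s₀)
    linarith
  generalize hE : ∑ s₀, (n + 1) * D' s₀ = e at he ⊢
  generalize hCC : 1 + ∑ s₀, 2 * |B' s₀| = C at hC ⊢
  obtain ⟨ψ, b, χ, hψ, hmon, hdom, hχ, hf⟩ := h1 s hdvd
  have hex : ∃ j, χ.coeff j ≠ 0 := by
    refine ⟨χ.natDegree, ?_⟩
    have h3 : χ.coeff χ.natDegree = 1 := hmon
    rw [h3]
    exact one_ne_zero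
  refine ⟨ψ, χ, Nat.find hex, ?_, hχ, ?_⟩
  · intro j hj
    by_contra h3
    exact Nat.find_min hex hj h3
  have ha0 : χ.coeff (Nat.find hex) ≠ 0 := Nat.find_spec hex
  have haD : Dom (K s₀) (χ.coeff (Nat.find hex)) := hdom _
  generalize χ.coeff (Nat.find hex) = a at ha0 haD ⊢
  intro X hX T hTne hT hrel hrob Φ hΦ
  set ϕ : (Fin (n + 1 + k) → ℤ) → (MvPowerSeries (Fin (n + 1)) ℤ_[p] →ₐ[ℤ_[p]] ℤ_[p]) :=
    fun x => (Φ x).comp ψ with hϕ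
  have hϕX : ∀ x ∈ T, ∀ i, ∃ c, ϕ x (MvPowerSeries.X i) = (p : ℤ_[p]) * c := by
    intro x hx i
    have e1 : ϕ x (MvPowerSeries.X i) = Φ x (yv D k MvPowerSeries.X i) := by
      simp only [hϕ, AlgHom.comp_apply, hψ]
    have e2 : Φ x (yv D k MvPowerSeries.X i) = yv D k (fun j => Φ x (MvPowerSeries.X j)) i :=
      (hJTR D (n + 1) _ _ (Φ x : MvPowerSeries (Fin (n + 1 + k)) ℤ_[p] →+* ℤ_[p])
        (fun _ _ => 0) k MvPowerSeries.X).1 i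
    rw [e1, e2]
    have e3 : ∀ j, (p : ℤ_[p]) ∣ Φ x (MvPowerSeries.X j) := by
      intro j
      rw [hΦ x hx j]
      obtain ⟨c, hc⟩ := (hT x hx j).2
      exact ⟨(c : ℤ_[p]), by rw [hc]; push_cast; ring⟩
    exact yv_dvd D (p : ℤ_[p]) k _ e3 i
  set v : (Fin (n + 1 + k) → ℤ) → Fin (n + 1) → ℤ_[p] := fun x i =>
    if h : ∃ c, ϕ x (MvPowerSeries.X i) = (p : ℤ_[p]) * c then h.choose else 0 with hv
  have hvX : ∀ x ∈ T, ∀ i, ϕ x (MvPowerSeries.X i) = (p : ℤ_[p]) * v x i := by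
    intro x hx i
    have h3 := hϕX x hx i
    simp only [hv, dif_pos h3]
    exact h3.choose_spec
  have hRelΦ : ∀ x ∈ T, Rels D (fun j α => (s j α : ℤ_[p])) k
      (fun i => (Φ x : MvPowerSeries (Fin (n + 1 + k)) ℤ_[p] →+* ℤ_[p]) (MvPowerSeries.X i)) := by
    intro x hx
    have h3 := rels_cast hTRL D (n + 1) k s x (hrel x hx) ℤ_[p]
    have h4 : (fun i => (Φ x : MvPowerSeries (Fin (n + 1 + k)) ℤ_[p] →+* ℤ_[p])
        (MvPowerSeries.X i)) = (fun i => (x i : ℤ_[p])) := by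
      funext i
      exact hΦ x hx i
    rw [h4]
    exact h3
  set A : Finset (Fin (n + 1 + k) → ℤ) := T.filter (fun x => ϕ x a = 0) with hA
  have hAT : A ⊆ T := Finset.filter_subset _ _
  obtain ⟨n₁, cls, hn₁, hcl⟩ := h2 a ha0 haD (Fin (n + 1 + k) → ℤ) A X hX (fun x => wv x) ϕ v
    (fun x l => Φ x (b l))
    (by
      intro x hx
      have hxT := hAT hx
      refine ⟨fun i => (hT x hxT _).1, hvX x hxT, ?_⟩
      rw [hA, Finset.mem_filter] at hx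
      exact hx.2)
    (by
      intro α
      obtain ⟨c, hc⟩ := hf (∏ i : Fin (n + 1),
        (MvPowerSeries.X (⟨k + i, by omega⟩ : Fin (n + 1 + k)) :
          MvPowerSeries (Fin (n + 1 + k)) ℤ_[p]) ^ α i)
      refine ⟨c, ?_⟩
      intro x hx
      have hxT := hAT hx
      have h3 := hc ℤ_[p] (Φ x : MvPowerSeries (Fin (n + 1 + k)) ℤ_[p] →+* ℤ_[p]) (hRelΦ x hxT)
      have h4 : (Φ x : MvPowerSeries (Fin (n + 1 + k)) ℤ_[p] →+* ℤ_[p])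
          (∏ i : Fin (n + 1), (MvPowerSeries.X (⟨k + i, by omega⟩ : Fin (n + 1 + k)) :
            MvPowerSeries (Fin (n + 1 + k)) ℤ_[p]) ^ α i)
          = ((∏ i, (wv x : Fin (n + 1) → ℤ) i ^ α i : ℤ) : ℤ_[p]) := by
        rw [map_prod]
        push_cast
        refine Finset.prod_congr rfl ?_
        intro i _
        rw [map_pow]
        congr 1
        exact hΦ x hxT _
      rw [← h4, h3]
      rfl)
  have hsmall : 2 * A.card < T.card := by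
    refine hLAR (n + 1) k e n₁ (C * (X : ℝ) ^ θ) T A cls hTne hAT hrob ?_ ?_
    · have hX0 : (0 : ℝ) ≤ (X : ℝ) ^ θ := Real.rpow_nonneg (Nat.cast_nonneg X) θ
      have h3 : B' s₀ * (X : ℝ) ^ θ ≤ |B' s₀| * (X : ℝ) ^ θ :=
        mul_le_mul_of_nonneg_right (le_abs_self _) hX0
      have h4 : 2 * |B' s₀| * (X : ℝ) ^ θ ≤ C * (X : ℝ) ^ θ :=
        mul_le_mul_of_nonneg_right hC hX0
      nlinarith [h3, h4, hn₁]
    · intro l
      obtain ⟨c, hc0, hc⟩ := hcl l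
      obtain ⟨g, hg0, hgd, hg⟩ := hGVP (n + 1) (D' s₀) c hc0
      refine ⟨g, hg0, hgd.trans he, ?_⟩
      intro x hx
      rw [Finset.mem_filter] at hx
      rw [hg (wv x)]
      exact hc x hx.1 hx.2
  refine ⟨A, hAT, hsmall, ?_⟩
  intro x hx h3
  rw [hA, Finset.mem_filter]
  exact ⟨hx, h3⟩

end Pool.Agent.LRG.H2
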